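import Mathlib

/-!
# CO-DIM: bounded solutions of asymptotically hyperbolic sequences, general part
-/

set_option autoImplicit false

open scoped Topology
open Filter Set Metric

namespace Pool.Agent.Y286.CO

variable {E : Type} [NormedAddCommGroup E] [NormedSpace ℝ E]

/-- the bounded solutions of `C j (v (j+1)) = D j (v j)` -/
def Sol (C D : ℕ → E →L[ℝ] E) : Submodule ℝ (ℕ → E) where
  carrier := {v | (∃ K : ℝ, ∀ j, ‖v j‖ ≤ K) ∧ ∀ j, C j (v (j + 1)) = D j (v j)}
  zero_mem' := ⟨⟨0, fun j => by simp⟩, fun j => by simp⟩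
  add_mem' := by
    rintro a b ⟨⟨K, hK⟩, ha⟩ ⟨⟨L, hL⟩, hb⟩
    refine ⟨⟨K + L, fun j => (norm_add_le _ _).trans (add_le_add (hK j) (hL j))⟩, fun j => ?_⟩
    rw [Pi.add_apply, Pi.add_apply, map_add, map_add, ha, hb]
  smul_mem' := by
    rintro c a ⟨⟨K, hK⟩, ha⟩
    refine ⟨⟨‖c‖ * K, fun j => ?_⟩, fun j => ?_⟩
    · rw [Pi.smul_apply, norm_smul]
      exact mul_le_mul_of_nonneg_left (hK j) (norm_nonneg c)
    · rw [Pi.smul_apply, Pi.smul_apply, map_smul, map_smul, ha]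

/-- the initial values of the bounded solutions -/
def Q (C D : ℕ → E →L[ℝ] E) : Submodule ℝ E := (Sol C D).map (LinearMap.proj 0)

theorem mem_Q {C D : ℕ → E →L[ℝ] E} {x : E} : x ∈ Q C D ↔ ∃ v ∈ Sol C D, v 0 = x := Iff.rfl

theorem zero_of_zero {C D : ℕ → E →L[ℝ] E} (hC : ∀ j, Function.Injective (C j)) {v : ℕ → E}
    (hv : v ∈ Sol C D) (h0 : v 0 = 0) (j : ℕ) : v j = 0 := by
  induction j with
  | zero => exact h0
  | succ j ih =>
    have h1 := hv.2 j
    rw [ih, map_zero] at h1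
    exact hC j (h1.trans (map_zero _).symm)

theorem shift_mem {C D : ℕ → E →L[ℝ] E} {v : ℕ → E} (hv : v ∈ Sol C D) (i : ℕ) :
    (fun j => v (i + j)) ∈ Sol (fun j => C (i + j)) (fun j => D (i + j)) := by
  obtain ⟨⟨K, hK⟩, h⟩ := hv
  exact ⟨⟨K, fun j => hK _⟩, fun j => h (i + j)⟩

theorem zero_back {C D : ℕ → E →L[ℝ] E} (hD : ∀ j, Function.Injective (D j)) {v : ℕ → E}
    (hv : v ∈ Sol C D) (i : ℕ) (hi : v i = 0) : v 0 = 0 := by
  induction i with
  | zero => exact hi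
  | succ i ih =>
    apply ih
    have h1 := hv.2 i
    rw [hi, map_zero] at h1
    exact hD i (h1.symm.trans (map_zero _).symm)

variable [FiniteDimensional ℝ E]

theorem finrank_Q_le {C D : ℕ → E →L[ℝ] E} (hC : ∀ j, Function.Injective (C j))
    (hD : ∀ j, Function.Injective (D j)) (i : ℕ) :
    Module.finrank ℝ (Q C D) ≤
      Module.finrank ℝ (Q (fun j => C (i + j)) (fun j => D (i + j))) := by
  let φ : Sol C D →ₗ[ℝ] Q (fun j => C (i + j)) (fun j => D (i + j)) :=
    { toFun := fun v => ⟨v.1 i, mem_Q.mpr ⟨_, shift_mem v.2 i, rfl⟩⟩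
      map_add' := fun _ _ => rfl
      map_smul' := fun _ _ => rfl }
  have hφ : Function.Injective φ := by
    rw [← LinearMap.ker_eq_bot, LinearMap.ker_eq_bot']
    intro v hv
    have h1 : v.1 i = 0 := congrArg Subtype.val hv
    have h2 := zero_back hD v.2 i h1
    apply Subtype.ext
    funext j
    exact zero_of_zero hC v.2 h2 j
  have : FiniteDimensional ℝ (Sol C D) := FiniteDimensional.of_injective φ hφ
  have h1 : Module.finrank ℝ (Q C D) ≤ Module.finrank ℝ (Sol C D) :=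
    Submodule.finrank_map_le _ _
  exact h1.trans (LinearMap.finrank_le_finrank_of_injective hφ)

theorem tclm {G : Filter ℕ} {f : ℕ → E →L[ℝ] E} {g : ℕ → E} {f' : E →L[ℝ] E} {g' : E}
    (hf : Tendsto f G (𝓝 f')) (hg : Tendsto g G (𝓝 g')) :
    Tendsto (fun k => f k (g k)) G (𝓝 (f' g')) :=
  (isBoundedBilinearMap_apply.continuous.tendsto (f', g')).comp (hf.prodMk_nhds hg)

theorem exists_lim (F : Ultrafilter ℕ) (w : ℕ → E) (K : ℝ) (hw : ∀ k, ‖w k‖ ≤ K) :
    ∃ u : E, ‖u‖ ≤ K ∧ Tendsto w F (𝓝 u) := by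
  have hc : IsCompact (closedBall (0 : E) K) := isCompact_closedBall _ _
  obtain ⟨u, hu, h⟩ := hc.ultrafilter_le_nhds' (F.map w)
    (by
      rw [Ultrafilter.mem_map]
      exact Filter.univ_mem' fun k => by
        rw [mem_preimage, mem_closedBall_zero_iff]; exact hw k)
  exact ⟨u, by rwa [mem_closedBall_zero_iff] at hu, h⟩

/-- the main point: for a complement `Z` of the bounded solutions of the limit equation -/
theorem exists_disj (C D : ℕ → E →L[ℝ] E) (C' D' : E →L[ℝ] E) (hC : Tendsto C atTop (𝓝 C'))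
    (hD : Tendsto D atTop (𝓝 D')) (hinj : ∀ j, Function.Injective (C j))
    (hinj' : Function.Injective C')
    (hyp : ∀ u : ℤ → E, (∃ K : ℝ, ∀ l, ‖u l‖ ≤ K) → (∀ l, C' (u (l + 1)) = D' (u l)) →
      ∀ l, u l = 0)
    (Z : Submodule ℝ E) (hZ : Q (fun _ => C') (fun _ => D') ⊓ Z = ⊥) :
    ∃ i : ℕ, Q (fun j => C (i + j)) (fun j => D (i + j)) ⊓ Z = ⊥ := by
  by_contra hcon
  push Not at hcon
  -- normalised solutions
  have h1 : ∀ k : ℕ, ∃ (w : ℕ → E) (j : ℕ), w ∈ Sol (fun l => C (k + l)) (fun l => D (k + l)) ∧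
      w 0 ∈ Z ∧ ‖w j‖ = 1 ∧ ∀ l, ‖w l‖ ≤ 2 := by
    intro k
    obtain ⟨x, hx, hx0⟩ := (Submodule.ne_bot_iff _).mp (hcon k)
    obtain ⟨v, hv, rfl⟩ := mem_Q.mp hx.1
    obtain ⟨K, hK⟩ := hv.1
    have hbdd : BddAbove (range fun l => ‖v l‖) := ⟨K, by rintro _ ⟨l, rfl⟩; exact hK l⟩
    have hpos : 0 < ⨆ l, ‖v l‖ := lt_of_lt_of_le (norm_pos_iff.mpr hx0) (le_ciSup hbdd 0)
    obtain ⟨j, hj⟩ := exists_lt_of_lt_ciSup (half_lt_self hpos)
    have hvj : 0 < ‖v j‖ := by linarith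
    refine ⟨‖v j‖⁻¹ • v, j, Submodule.smul_mem _ _ hv, Z.smul_mem _ hx.2, ?_, fun l => ?_⟩
    · rw [Pi.smul_apply, norm_smul, norm_inv, norm_norm]
      exact inv_mul_cancel₀ hvj.ne'
    · rw [Pi.smul_apply, norm_smul, norm_inv, norm_norm, inv_mul_le_iff₀ hvj]
      have : ‖v l‖ ≤ ⨆ l, ‖v l‖ := le_ciSup hbdd l
      linarith
  choose w jj hw hwZ hw1 hw2 using h1
  let F : Ultrafilter ℕ := hyperfilter ℕ
  have hF : (F : Filter ℕ) ≤ atTop := by
    rw [← Nat.cofinite_eq_atTop]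
    exact hyperfilter_le_cofinite
  by_cases hcase : ∃ j, ∀ᶠ k in (F : Filter ℕ), jj k = j
  · obtain ⟨j, hj⟩ := hcase
    choose u hu2 hu using fun l => exists_lim F (fun k => w k l) 2 (fun k => hw2 k l)
    have hsol : u ∈ Sol (fun _ => C') (fun _ => D') := by
      refine ⟨⟨2, hu2⟩, fun l => ?_⟩
      have hkl : Tendsto (fun k : ℕ => k + l) (F : Filter ℕ) atTop :=
        (tendsto_add_atTop_nat l).comp hF
      have e1 : Tendsto (fun k => C (k + l) (w k (l + 1))) F (𝓝 (C' (u (l + 1)))) :=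
        tclm (hC.comp hkl) (hu (l + 1))
      have e2 : Tendsto (fun k => D (k + l) (w k l)) F (𝓝 (D' (u l))) :=
        tclm (hD.comp hkl) (hu l)
      refine tendsto_nhds_unique e1 (e2.congr fun k => ?_)
      exact ((hw k).2 l).symm
    have hu0 : u 0 ∈ Q (fun _ => C') (fun _ => D') ⊓ Z := by
      refine ⟨mem_Q.mpr ⟨u, hsol, rfl⟩, ?_⟩
      exact Z.closed_of_finiteDimensional.mem_of_tendsto (hu 0)
        (Eventually.of_forall fun k => hwZ k)
    rw [hZ, Submodule.mem_bot] at hu0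
    have huj := zero_of_zero (fun _ => hinj') hsol hu0 j
    have e1 : Tendsto (fun k => ‖w k j‖) F (𝓝 ‖u j‖) := (hu j).norm
    have e2 : Tendsto (fun k => ‖w k j‖) F (𝓝 1) := by
      refine tendsto_const_nhds.congr' ?_
      filter_upwards [hj] with k hk
      rw [← hk, hw1 k]
    have e3 := tendsto_nhds_unique e1 e2
    rw [huj, norm_zero] at e3
    exact zero_ne_one e3
  · push Not at hcase
    have hlarge : ∀ m : ℕ, ∀ᶠ k in (F : Filter ℕ), m ≤ jj k := by
      intro m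
      induction m with
      | zero => exact Eventually.of_forall fun k => Nat.zero_le _
      | succ m ih =>
        have h2 := hcase m
        filter_upwards [ih, h2] with k hk1 hk2
        omega
    choose u hu2 hu using fun l : ℤ =>
      exists_lim F (fun k => w k ((jj k : ℤ) + l).toNat) 2 (fun k => hw2 k _)
    have hz := hyp u ⟨2, hu2⟩ (fun l => by
      have hkl : Tendsto (fun k : ℕ => k + ((jj k : ℤ) + l).toNat) (F : Filter ℕ) atTop :=
        tendsto_atTop_mono (fun k => Nat.le_add_right k _) hF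
      have e1 : Tendsto (fun k => C (k + ((jj k : ℤ) + l).toNat)
          (w k ((jj k : ℤ) + (l + 1)).toNat)) F (𝓝 (C' (u (l + 1)))) :=
        tclm (hC.comp hkl) (hu (l + 1))
      have e2 : Tendsto (fun k => D (k + ((jj k : ℤ) + l).toNat)
          (w k ((jj k : ℤ) + l).toNat)) F (𝓝 (D' (u l))) :=
        tclm (hD.comp hkl) (hu l)
      refine tendsto_nhds_unique e1 (e2.congr' ?_)
      filter_upwards [hlarge l.natAbs] with k hk
      have h3 : ((jj k : ℤ) + (l + 1)).toNat = ((jj k : ℤ) + l).toNat + 1 := by omega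
      rw [h3]
      exact ((hw k).2 _).symm) 0
    have e1 : Tendsto (fun k => ‖w k ((jj k : ℤ) + 0).toNat‖) F (𝓝 ‖u 0‖) := (hu 0).norm
    have e2 : Tendsto (fun k => ‖w k ((jj k : ℤ) + 0).toNat‖) F (𝓝 1) := by
      refine tendsto_const_nhds.congr fun k => ?_
      rw [add_zero, Int.toNat_natCast, hw1 k]
    have e3 := tendsto_nhds_unique e1 e2
    rw [hz, norm_zero] at e3
    exact zero_ne_one e3

/-- the dimension of the space of bounded solutions is at most the one of the limit equation -/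
theorem finrank_le (C D : ℕ → E →L[ℝ] E) (C' D' : E →L[ℝ] E) (hC : Tendsto C atTop (𝓝 C'))
    (hD : Tendsto D atTop (𝓝 D')) (hinj : ∀ j, Function.Injective (C j))
    (hinjD : ∀ j, Function.Injective (D j)) (hinj' : Function.Injective C')
    (hyp : ∀ u : ℤ → E, (∃ K : ℝ, ∀ l, ‖u l‖ ≤ K) → (∀ l, C' (u (l + 1)) = D' (u l)) →
      ∀ l, u l = 0) :
    Module.finrank ℝ (Q C D) ≤ Module.finrank ℝ (Q (fun _ => C') (fun _ => D')) := by
  obtain ⟨Z, hZ⟩ := Submodule.exists_isCompl (Q (fun _ => C') (fun _ => D'))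
  obtain ⟨i, hi⟩ := exists_disj C D C' D' hC hD hinj hinj' hyp Z hZ.inf_eq_bot
  have h1 := Submodule.finrank_add_finrank_le_of_disjoint (disjoint_iff.mpr hi)
  have h2 := Submodule.finrank_add_eq_of_isCompl hZ
  have h3 := finrank_Q_le hinj hinjD i
  omega

end Pool.Agent.Y286.CO
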